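import Pool.Agent.H31.DPD.Targets

/-!
Module GS of the project DPD (multilinear exponential sums) on `MP_c59857_nt`.
-/

set_option autoImplicit false

open Finset Filter Topology

namespace Pool.Agent.H29.DPD

open Pool.Agent.H31.DP (ee mul)
open Pool.Agent.H31.DPD

private lemma ee_add (x y : ℝ) : ee (x + y) = ee x * ee y := by
  unfold Pool.Agent.H31.DP.ee
  rw [← Complex.exp_add]
  congr 1
  push_cast
  ring

private lemma ee_int (n : ℤ) : ee (n : ℝ) = 1 := by
  unfold Pool.Agent.H31.DP.ee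
  rw [Complex.exp_eq_one_iff]
  exact ⟨n, by push_cast; ring⟩

private lemma ee_norm (x : ℝ) : ‖ee x‖ = 1 := by
  unfold Pool.Agent.H31.DP.ee
  rw [show (2 * (Real.pi : ℂ) * Complex.I * (x : ℂ)) = ((2 * Real.pi * x : ℝ) : ℂ) * Complex.I by
    push_cast; ring]
  exact Complex.norm_exp_ofReal_mul_I _

private lemma ee_pow (x : ℝ) (n : ℕ) : ee x ^ n = ee (n * x) := by
  induction n with
  | zero =>
    have := ee_int 0
    simp only [Int.cast_zero] at this
    simp [this]
  | succ n ih =>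
    rw [pow_succ, ih, ← ee_add]
    congr 1
    push_cast
    ring

private lemma ee_sub_one (x : ℝ) : 4 * |x - round x| ≤ ‖ee x - 1‖ := by
  have h1 : ee x = ee (x - round x) := by
    have : ee x = ee ((x - round x) + ((round x : ℤ) : ℝ)) := by congr 1; ring
    rw [this, ee_add, ee_int, mul_one]
  rw [h1]
  set y : ℝ := x - round x with hy
  have hy1 : |y| ≤ 1 / 2 := by
    rw [hy]
    exact abs_sub_round x
  have h2 : ‖ee y - 1‖ = ‖2 * Real.sin (2 * Real.pi * y / 2)‖ := by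
    rw [← Complex.norm_exp_I_mul_ofReal_sub_one]
    unfold Pool.Agent.H31.DP.ee
    congr 3
    push_cast
    ring
  rw [h2, Real.norm_eq_abs, abs_mul, abs_two]
  have h3 : 2 * Real.pi * y / 2 = Real.pi * y := by ring
  rw [h3]
  have h4 : |Real.pi * y| ≤ Real.pi / 2 := by
    rw [abs_mul, abs_of_pos Real.pi_pos]
    nlinarith [Real.pi_pos]
  have h5 := Real.mul_abs_le_abs_sin h4
  rw [abs_mul, abs_of_pos Real.pi_pos] at h5
  have h6 : 2 / Real.pi * (Real.pi * |y|) = 2 * |y| := by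
    field_simp
  rw [h6] at h5
  linarith

/-- the geometric sum over the multiples of `Q` -/
private lemma geo (Q M : ℕ) (hQ : 0 < Q) (β : ℝ) :
    2 * ‖∑ s ∈ mul Q M, ee (β * (s : ℝ))‖ * |β * Q - round (β * Q)| ≤ 1 := by
  classical
  set k : ℕ := M / Q with hk
  have hQZ : (0 : ℤ) < Q := by exact_mod_cast hQ
  have h1 : ∑ s ∈ mul Q M, ee (β * (s : ℝ)) =
      ∑ i ∈ Finset.range (2 * k + 1), ee (-(β * Q) * k) * ee (β * Q) ^ i := by
    symm
    apply Finset.sum_bij (fun (i : ℕ) _ => (Q : ℤ) * ((i : ℤ) - k))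
    · intro i hi
      have hi' := Finset.mem_range.1 hi
      unfold Pool.Agent.H31.DP.mul
      refine Finset.mem_filter.2 ⟨?_, Dvd.intro _ rfl⟩
      have hkM : (Q : ℤ) * k ≤ M := by
        have := Nat.mul_div_le M Q
        exact_mod_cast this
      rw [Finset.mem_Icc]
      constructor
      · have : (Q : ℤ) * (-k) ≤ Q * ((i : ℤ) - k) :=
          mul_le_mul_of_nonneg_left (by omega) hQZ.le
        linarith
      · have : (Q : ℤ) * ((i : ℤ) - k) ≤ Q * k :=
          mul_le_mul_of_nonneg_left (by omega) hQZ.le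
        linarith
    · intro i _ j _ hij
      have := mul_left_cancel₀ (ne_of_gt hQZ) hij
      omega
    · intro s hs
      unfold Pool.Agent.H31.DP.mul at hs
      obtain ⟨hs1, j, hj⟩ := Finset.mem_filter.1 hs
      obtain ⟨h2, h3⟩ := Finset.mem_Icc.1 hs1
      have hjk : j ≤ k := by
        have e : j ≤ (M : ℤ) / Q := by
          rw [Int.le_ediv_iff_mul_le hQZ]
          rw [hj] at h3
          linarith
        rw [hk]
        push_cast
        exact e
      have hjk' : -(k : ℤ) ≤ j := by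
        have e : -j ≤ (M : ℤ) / Q := by
          rw [Int.le_ediv_iff_mul_le hQZ]
          rw [hj] at h2
          linarith
        have : -j ≤ (k : ℤ) := by
          rw [hk]
          push_cast
          exact e
        linarith
      refine ⟨(j + k).toNat, Finset.mem_range.2 (by omega), ?_⟩
      have : (((j + k).toNat : ℕ) : ℤ) = j + k := Int.toNat_of_nonneg (by omega)
      simp only [this]
      rw [hj]
      ring
    · intro i _
      rw [ee_pow, ← ee_add]
      congr 1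
      push_cast
      ring
  rw [h1, ← Finset.mul_sum, norm_mul, ee_norm, one_mul]
  have h2 := ee_sub_one (β * Q)
  have h3 : ‖∑ i ∈ Finset.range (2 * k + 1), ee (β * Q) ^ i‖ * ‖ee (β * Q) - 1‖ ≤ 2 := by
    rw [← norm_mul, geom_sum_mul]
    refine (norm_sub_le _ _).trans ?_
    rw [norm_pow, ee_norm]
    norm_num
  have h4 : 0 ≤ ‖∑ i ∈ Finset.range (2 * k + 1), ee (β * Q) ^ i‖ := norm_nonneg _
  nlinarith [mul_le_mul_of_nonneg_left h2 h4]

private lemma card_mul (Q M : ℕ) (hM : 1 ≤ M) : ((mul Q M).card : ℝ) ≤ 3 * M := by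
  have h1 : (mul Q M).card ≤ 2 * M + 1 := by
    unfold Pool.Agent.H31.DP.mul
    refine (Finset.card_filter_le _ _).trans ?_
    rw [Int.card_Icc]
    omega
  have h2 : ((mul Q M).card : ℝ) ≤ 2 * M + 1 := by exact_mod_cast h1
  have h3 : (1 : ℝ) ≤ M := by exact_mod_cast hM
  linarith

private lemma card_mulc (e Q M : ℕ) (hM : 1 ≤ M) : ((mulc e Q M).card : ℝ) ≤ (3 * (M : ℝ)) ^ e := by
  unfold Pool.Agent.H31.DPD.mulc
  rw [Fintype.card_piFinset]
  simp only [Finset.prod_const, Finset.card_univ, Fintype.card_fin]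
  push_cast
  exact pow_le_pow_left₀ (by positivity) (card_mul Q M hM) e

private lemma split_sum (e Q M : ℕ) (c : ℝ) :
    ∑ s ∈ mulc (e + 1) Q M, ee (c * ((∏ i, s i : ℤ) : ℝ)) =
      ∑ t ∈ mulc e Q M, ∑ x ∈ mul Q M, ee ((c * ((∏ i, t i : ℤ) : ℝ)) * (x : ℝ)) := by
  classical
  rw [← Finset.sum_product']
  symm
  apply Finset.sum_bij' (fun (z : (Fin e → ℤ) × ℤ) _ => (Fin.cons z.2 z.1 : Fin (e + 1) → ℤ))
    (fun s _ => (Fin.tail s, s 0))
  · intro z hz
    obtain ⟨h1, h2⟩ := Finset.mem_product.1 hz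
    unfold Pool.Agent.H31.DPD.mulc
    refine Fintype.mem_piFinset.2 (fun i => ?_)
    refine Fin.cases ?_ ?_ i
    · simpa using h2
    · intro k
      unfold Pool.Agent.H31.DPD.mulc at h1
      simpa using Fintype.mem_piFinset.1 h1 k
  · intro s hs
    unfold Pool.Agent.H31.DPD.mulc at hs
    refine Finset.mem_product.2 ⟨?_, ?_⟩
    · unfold Pool.Agent.H31.DPD.mulc
      exact Fintype.mem_piFinset.2 (fun k => Fintype.mem_piFinset.1 hs k.succ)
    · exact Fintype.mem_piFinset.1 hs 0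
  · intro z _
    simp [Fin.tail_cons]
  · intro s _
    exact Fin.cons_self_tail s
  · intro z _
    congr 1
    rw [Fin.prod_univ_succ]
    simp only [Fin.cons_zero, Fin.cons_succ]
    push_cast
    ring

private lemma many (e Q M : ℕ) (hQ : 0 < Q) (hM : 1 ≤ M) (c τ : ℝ) (hτ : 0 < τ)
    (h : τ * (M : ℝ) ^ (e + 1) < ‖∑ s ∈ mulc (e + 1) Q M, ee (c * ((∏ i, s i : ℤ) : ℝ))‖) :
    τ / 6 * (M : ℝ) ^ e ≤ (((Fintype.piFinset (fun _ : Fin e => Finset.Icc (-(M : ℤ)) M)).filter
      (fun j => |c * (Q : ℝ) ^ (e + 1) * ((∏ i, j i : ℤ) : ℝ) -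
        round (c * (Q : ℝ) ^ (e + 1) * ((∏ i, j i : ℤ) : ℝ))| ≤ (3 ^ e / τ) / M)).card : ℝ) := by
  classical
  have hMr : (1 : ℝ) ≤ M := by exact_mod_cast hM
  have hMpos : (0 : ℝ) < M := by linarith
  have hQZ : (0 : ℤ) < Q := by exact_mod_cast hQ
  set inn : (Fin e → ℤ) → ℂ := fun t => ∑ x ∈ mul Q M, ee ((c * ((∏ i, t i : ℤ) : ℝ)) * (x : ℝ))
    with hinn
  set G : Finset (Fin e → ℤ) := (mulc e Q M).filter
    (fun t => τ / (2 * 3 ^ e) * M < ‖inn t‖) with hG
  have hinn_le : ∀ t, ‖inn t‖ ≤ 3 * M := by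
    intro t
    rw [hinn]
    refine (norm_sum_le _ _).trans ?_
    simp only [ee_norm, Finset.sum_const, nsmul_eq_mul, mul_one]
    exact card_mul Q M hM
  have hGcard : τ / 6 * (M : ℝ) ^ e ≤ (G.card : ℝ) := by
    rw [split_sum] at h
    have e1 : ‖∑ t ∈ mulc e Q M, inn t‖ ≤ G.card * (3 * M) +
        (3 * (M : ℝ)) ^ e * (τ / (2 * 3 ^ e) * M) := by
      refine (norm_sum_le _ _).trans ?_
      rw [← Finset.sum_filter_add_sum_filter_not (mulc e Q M)
        (fun t => τ / (2 * 3 ^ e) * M < ‖inn t‖)]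
      apply add_le_add
      · calc ∑ t ∈ G, ‖inn t‖ ≤ ∑ t ∈ G, (3 * M : ℝ) := Finset.sum_le_sum (fun t _ => hinn_le t)
          _ = G.card * (3 * M) := by rw [Finset.sum_const, nsmul_eq_mul]
      · calc ∑ t ∈ (mulc e Q M).filter (fun t => ¬ τ / (2 * 3 ^ e) * M < ‖inn t‖), ‖inn t‖ ≤
              ∑ t ∈ (mulc e Q M).filter (fun t => ¬ τ / (2 * 3 ^ e) * M < ‖inn t‖),
                τ / (2 * 3 ^ e) * M := by
              apply Finset.sum_le_sum
              intro t ht
              exact not_lt.1 (Finset.mem_filter.1 ht).2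
          _ ≤ ∑ t ∈ mulc e Q M, τ / (2 * 3 ^ e) * M := by
              apply Finset.sum_le_sum_of_subset_of_nonneg (Finset.filter_subset _ _)
              intro t _ _
              positivity
          _ = (mulc e Q M).card * (τ / (2 * 3 ^ e) * M) := by rw [Finset.sum_const, nsmul_eq_mul]
          _ ≤ (3 * (M : ℝ)) ^ e * (τ / (2 * 3 ^ e) * M) :=
              mul_le_mul_of_nonneg_right (card_mulc e Q M hM) (by positivity)
    have e2 : (3 * (M : ℝ)) ^ e * (τ / (2 * 3 ^ e) * M) = τ / 2 * (M : ℝ) ^ (e + 1) := by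
      rw [mul_pow, pow_succ]
      field_simp
    rw [e2] at e1
    have e3 : τ / 2 * (M : ℝ) ^ (e + 1) ≤ G.card * (3 * M) := by
      have := h.le.trans e1
      linarith
    have e4 : (τ / 6 * (M : ℝ) ^ e) * (3 * M) ≤ (G.card : ℝ) * (3 * M) := by
      calc (τ / 6 * (M : ℝ) ^ e) * (3 * M) = τ / 2 * (M : ℝ) ^ (e + 1) := by rw [pow_succ]; ring
        _ ≤ _ := e3
    exact le_of_mul_le_mul_right e4 (by positivity)
  refine hGcard.trans ?_
  have hinj : G.card ≤ ((Fintype.piFinset (fun _ : Fin e => Finset.Icc (-(M : ℤ)) M)).filter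
      (fun j => |c * (Q : ℝ) ^ (e + 1) * ((∏ i, j i : ℤ) : ℝ) -
        round (c * (Q : ℝ) ^ (e + 1) * ((∏ i, j i : ℤ) : ℝ))| ≤ (3 ^ e / τ) / M)).card := by
    apply Finset.card_le_card_of_injOn (fun t => fun i => t i / (Q : ℤ))
    · intro t ht
      obtain ⟨ht1, ht2⟩ := Finset.mem_filter.1 (Finset.mem_coe.1 ht)
      unfold Pool.Agent.H31.DPD.mulc Pool.Agent.H31.DP.mul at ht1
      have hdiv : ∀ i, (Q : ℤ) ∣ t i := fun i =>
        (Finset.mem_filter.1 (Fintype.mem_piFinset.1 ht1 i)).2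
      have hrange : ∀ i, -(M : ℤ) ≤ t i ∧ t i ≤ M := fun i =>
        Finset.mem_Icc.1 (Finset.mem_filter.1 (Fintype.mem_piFinset.1 ht1 i)).1
      refine Finset.mem_coe.2 (Finset.mem_filter.2 ⟨?_, ?_⟩)
      · refine Fintype.mem_piFinset.2 (fun i => ?_)
        obtain ⟨j, hj⟩ := hdiv i
        have h1 := hrange i
        rw [hj] at h1
        have h2 : t i / (Q : ℤ) = j := by
          rw [hj]
          exact Int.mul_ediv_cancel_left _ (ne_of_gt hQZ)
        simp only [h2]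
        have hQ1 : (1 : ℤ) ≤ Q := by omega
        have hM0 : (0 : ℤ) ≤ M := by positivity
        rw [Finset.mem_Icc]
        constructor
        · by_contra hc
          push Not at hc
          nlinarith
        · by_contra hc
          push Not at hc
          nlinarith
      · have e1 : c * (Q : ℝ) ^ (e + 1) * ((∏ i, (t i / (Q : ℤ)) : ℤ) : ℝ) =
            (c * ((∏ i, t i : ℤ) : ℝ)) * Q := by
          have e2 : ((∏ i, t i : ℤ) : ℝ) = (Q : ℝ) ^ e * ((∏ i, (t i / (Q : ℤ)) : ℤ) : ℝ) := by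
            have e3 : ∏ i, t i = (Q : ℤ) ^ e * ∏ i, (t i / (Q : ℤ)) := by
              have e4 : (Q : ℤ) ^ e = ∏ _i : Fin e, (Q : ℤ) := by simp
              rw [e4, ← Finset.prod_mul_distrib]
              apply Finset.prod_congr rfl
              intro i _
              exact (Int.mul_ediv_cancel' (hdiv i)).symm
            rw [e3]
            push_cast
            ring
          rw [e2, pow_succ]
          ring
        show |c * (Q : ℝ) ^ (e + 1) * ((∏ i, (t i / (Q : ℤ)) : ℤ) : ℝ) -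
          round (c * (Q : ℝ) ^ (e + 1) * ((∏ i, (t i / (Q : ℤ)) : ℤ) : ℝ))| ≤ (3 ^ e / τ) / M
        rw [e1]
        have hg := geo Q M hQ (c * ((∏ i, t i : ℤ) : ℝ))
        have hnn : 0 ≤ |c * ((∏ i, t i : ℤ) : ℝ) * Q - round (c * ((∏ i, t i : ℤ) : ℝ) * Q)| :=
          abs_nonneg _
        have hlow : τ / (2 * 3 ^ e) * M < ‖∑ s ∈ mul Q M, ee ((c * ((∏ i, t i : ℤ) : ℝ)) * (s : ℝ))‖ :=
          ht2
        rw [le_div_iff₀ hMpos, le_div_iff₀ hτ]
        have e5 : 2 * (τ / (2 * 3 ^ e) * M) *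
            |c * ((∏ i, t i : ℤ) : ℝ) * Q - round (c * ((∏ i, t i : ℤ) : ℝ) * Q)| ≤ 1 := by
          refine le_trans ?_ hg
          apply mul_le_mul_of_nonneg_right _ hnn
          linarith
        have e6 : 2 * (τ / (2 * 3 ^ e) * M) = τ * M / 3 ^ e := by
          field_simp
        rw [e6, div_mul_eq_mul_div, div_le_one (by positivity)] at e5
        linarith
    · intro t ht u hu htu
      obtain ⟨ht1, _⟩ := Finset.mem_filter.1 (Finset.mem_coe.1 ht)
      obtain ⟨hu1, _⟩ := Finset.mem_filter.1 (Finset.mem_coe.1 hu)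
      unfold Pool.Agent.H31.DPD.mulc Pool.Agent.H31.DP.mul at ht1 hu1
      funext i
      have h1 : (Q : ℤ) ∣ t i := (Finset.mem_filter.1 (Fintype.mem_piFinset.1 ht1 i)).2
      have h2 : (Q : ℤ) ∣ u i := (Finset.mem_filter.1 (Fintype.mem_piFinset.1 hu1 i)).2
      have h3 : t i / (Q : ℤ) = u i / (Q : ℤ) := congrFun htu i
      rw [← Int.mul_ediv_cancel' h1, ← Int.mul_ediv_cancel' h2, h3]
  exact_mod_cast hinj

theorem pf_GS (hRM : P_RM) : P_GS := by
  classical
  intro d Q B τ hd hQ hτ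
  obtain ⟨e, rfl⟩ : ∃ e, d = e + 1 := ⟨d - 1, by omega⟩
  obtain ⟨C, hC⟩ := hRM e (τ / 6) (3 ^ e / τ) (by positivity) (by positivity)
  refine ⟨B * C + C * (e + 1).factorial * Q ^ (e + 1) * B + C + 1, ?_⟩
  intro M hM γ hmin a b ha haB hb hbB
  have hM1 : 1 ≤ M := by omega
  have hMC : C ≤ M := by omega
  have hMr : (1 : ℝ) ≤ M := by exact_mod_cast hM1
  have hMpos : (0 : ℝ) < M := by linarith
  by_contra hcon
  push Not at hcon
  have h1 := many e Q M hQ hM1 (((e + 1).factorial : ℝ) * (γ * (a / b))) τ hτ hcon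
  obtain ⟨q, hq1, hq2, z, hz⟩ := hC M hMC _ h1
  set q' : ℕ := q * (e + 1).factorial * Q ^ (e + 1) * a.natAbs with hq'
  have hanat : 1 ≤ a.natAbs := Int.natAbs_pos.2 ha
  have hanatB : a.natAbs ≤ B := by
    have h0 : ((a.natAbs : ℕ) : ℤ) ≤ B := by
      rw [Int.natCast_natAbs]
      exact haB
    exact_mod_cast h0
  have hq'1 : 1 ≤ q' := by
    rw [hq']
    have : 0 < (e + 1).factorial := Nat.factorial_pos _
    exact Nat.one_le_iff_ne_zero.2 (by positivity)
  have hq'2 : q' ≤ B * C + C * (e + 1).factorial * Q ^ (e + 1) * B + C + 1 := by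
    have : q' ≤ C * (e + 1).factorial * Q ^ (e + 1) * B := by
      rw [hq']
      gcongr
    omega
  have h2 := hmin q' hq'1 hq'2 (a.sign * b * z)
  have hbr : (0 : ℝ) < b := by exact_mod_cast hb
  have hbBr : (b : ℝ) ≤ B := by exact_mod_cast hbB
  have h3 : (q' : ℝ) * γ - ((a.sign * b * z : ℤ) : ℝ) = (a.sign : ℝ) * (b *
      ((q : ℝ) * (((e + 1).factorial : ℝ) * (γ * (a / b)) * (Q : ℝ) ^ (e + 1)) - z)) := by
    have h4 : ((a.natAbs : ℕ) : ℝ) = (a.sign : ℝ) * a := by
      have h5 : ((a.natAbs : ℕ) : ℤ) = a.sign * a := (Int.sign_mul_self_eq_natAbs a).symm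
      have h6 : (((a.natAbs : ℕ) : ℤ) : ℝ) = ((a.sign * a : ℤ) : ℝ) := by rw [h5]
      rw [Int.cast_mul, Int.cast_natCast] at h6
      exact h6
    rw [hq']
    push_cast
    rw [h4]
    field_simp
  have hsign : |(a.sign : ℝ)| = 1 := by
    rcases lt_or_gt_of_ne ha with h | h
    · rw [Int.sign_eq_neg_one_of_neg h]; norm_num
    · rw [Int.sign_eq_one_of_pos h]; norm_num
  have h6 : |(q' : ℝ) * γ - ((a.sign * b * z : ℤ) : ℝ)| ≤ B * (C / (M : ℝ) ^ (e + 1)) := by
    rw [h3, abs_mul, hsign, one_mul, abs_mul, abs_of_pos hbr]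
    exact mul_le_mul hbBr hz (abs_nonneg _) (by positivity)
  have h7 : (M : ℝ) ^ (e + 1) * |(q' : ℝ) * γ - ((a.sign * b * z : ℤ) : ℝ)| ≤ B * C := by
    calc (M : ℝ) ^ (e + 1) * |(q' : ℝ) * γ - ((a.sign * b * z : ℤ) : ℝ)| ≤
        (M : ℝ) ^ (e + 1) * (B * (C / (M : ℝ) ^ (e + 1))) :=
          mul_le_mul_of_nonneg_left h6 (by positivity)
      _ = B * C := by field_simp
  have h8 := h2.trans h7
  push_cast at h8
  have h9 : (0 : ℝ) ≤ (C : ℝ) * ((e + 1).factorial : ℝ) * (Q : ℝ) ^ (e + 1) * B := by positivity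
  have h10 : (0 : ℝ) ≤ (C : ℝ) := by positivity
  linarith

end Pool.Agent.H29.DPD
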