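import Pool.Agent.H31.DPD.Targets
import Pool.Agent.H98.KS.Targets1

/-!
Module RM of the project DPD (multilinear recurrence) on `MP_c59857_nt`.
-/

set_option autoImplicit false

open Finset Filter Topology

namespace Pool.Agent.H29.DPD

open Pool.Agent.H31.DPD
open Pool.Agent.H98.KS (dn T_RL)

private lemma dn_le (x : ℝ) (a : ℤ) : dn x ≤ |x - a| := by
  unfold Pool.Agent.H98.KS.dn
  exact round_le x a

/-- the good set -/
private noncomputable def gs (d M : ℕ) (γ B : ℝ) : Finset (Fin d → ℤ) :=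
  (Fintype.piFinset (fun _ : Fin d => Finset.Icc (-(M : ℤ)) M)).filter
    (fun j => |γ * ((∏ i, j i : ℤ) : ℝ) - round (γ * ((∏ i, j i : ℤ) : ℝ))| ≤ B / M)

private lemma card_box (d M : ℕ) (hM : 1 ≤ M) :
    ((Fintype.piFinset (fun _ : Fin d => Finset.Icc (-(M : ℤ)) M)).card : ℝ) ≤
      (3 * (M : ℝ)) ^ d := by
  have h1 : (Fintype.piFinset (fun _ : Fin d => Finset.Icc (-(M : ℤ)) M)).card =
      (2 * M + 1) ^ d := by
    rw [Fintype.card_piFinset]
    simp only [Int.card_Icc, Finset.prod_const, Finset.card_univ, Fintype.card_fin]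
    congr 1
    omega
  rw [h1]
  push_cast
  have hM' : (1 : ℝ) ≤ M := by exact_mod_cast hM
  apply pow_le_pow_left₀ (by positivity)
  linarith

private lemma card_gs_le (d M : ℕ) (hM : 1 ≤ M) (γ B : ℝ) :
    ((gs d M γ B).card : ℝ) ≤ (3 * (M : ℝ)) ^ d := by
  refine le_trans ?_ (card_box d M hM)
  exact_mod_cast Finset.card_le_card (Finset.filter_subset _ _)

private lemma gs_succ (d M : ℕ) (γ B : ℝ) :
    ((gs (d + 1) M γ B).card : ℝ) =
      ∑ x ∈ Finset.Icc (-(M : ℤ)) M, ((gs d M (γ * x) B).card : ℝ) := by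
  classical
  have h1 : (gs (d + 1) M γ B).card =
      ∑ x ∈ Finset.Icc (-(M : ℤ)) M, ((gs (d + 1) M γ B).filter (fun j => j 0 = x)).card := by
    apply Finset.card_eq_sum_card_fiberwise
    intro j hj
    have := (Finset.mem_filter.1 (Finset.mem_coe.1 hj)).1
    exact Finset.mem_coe.2 (Fintype.mem_piFinset.1 this 0)
  rw [h1]
  push_cast
  apply Finset.sum_congr rfl
  intro x hx
  have h2 : ((gs (d + 1) M γ B).filter (fun j => j 0 = x)).card = (gs d M (γ * x) B).card := by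
    apply Finset.card_bij' (fun j _ => Fin.tail j) (fun j _ => (Fin.cons x j : Fin (d + 1) → ℤ))
    · intro j hj
      obtain ⟨hj1, hj2⟩ := Finset.mem_filter.1 hj
      obtain ⟨hj3, hj4⟩ := Finset.mem_filter.1 hj1
      refine Finset.mem_filter.2 ⟨?_, ?_⟩
      · exact Fintype.mem_piFinset.2 (fun i => Fintype.mem_piFinset.1 hj3 i.succ)
      · have e : γ * (((∏ i, j i : ℤ)) : ℝ) = γ * x * ((∏ i, Fin.tail j i : ℤ) : ℝ) := by
          rw [Fin.prod_univ_succ, hj2]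
          push_cast
          simp only [Fin.tail]
          ring
        rw [e] at hj4
        exact hj4
    · intro j hj
      obtain ⟨hj3, hj4⟩ := Finset.mem_filter.1 hj
      refine Finset.mem_filter.2 ⟨Finset.mem_filter.2 ⟨?_, ?_⟩, by simp⟩
      · refine Fintype.mem_piFinset.2 (fun i => ?_)
        refine Fin.cases ?_ ?_ i
        · simpa using hx
        · intro k
          simpa using Fintype.mem_piFinset.1 hj3 k
      · have e : γ * (((∏ i, (Fin.cons x j : Fin (d + 1) → ℤ) i : ℤ)) : ℝ) =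
            γ * x * ((∏ i, j i : ℤ) : ℝ) := by
          rw [Fin.prod_univ_succ]
          push_cast
          simp only [Fin.cons_zero, Fin.cons_succ]
          ring
        rw [e]
        exact hj4
    · intro j hj
      obtain ⟨hj1, hj2⟩ := Finset.mem_filter.1 hj
      rw [← hj2]
      exact Fin.cons_self_tail j
    · intro j hj
      exact Fin.tail_cons _ _
  rw [h2]

private lemma step (hRL : T_RL) (d : ℕ)
    (ih : ∀ (δ B : ℝ), 0 < δ → 0 < B → ∃ C : ℕ, ∀ M : ℕ, C ≤ M → ∀ γ : ℝ,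
      δ * (M : ℝ) ^ d ≤ ((gs d M γ B).card : ℝ) →
      ∃ q : ℕ, 1 ≤ q ∧ q ≤ C ∧ ∃ a : ℤ, |(q : ℝ) * γ - a| ≤ C / (M : ℝ) ^ (d + 1))
    (δ B : ℝ) (hδ : 0 < δ) (hB : 0 < B) :
    ∃ C : ℕ, ∀ M : ℕ, C ≤ M → ∀ γ : ℝ,
      δ * (M : ℝ) ^ (d + 1) ≤ ((gs (d + 1) M γ B).card : ℝ) →
      ∃ q : ℕ, 1 ≤ q ∧ q ≤ C ∧ ∃ a : ℤ, |(q : ℝ) * γ - a| ≤ C / (M : ℝ) ^ (d + 1 + 1) := by
  classical
  obtain ⟨C0', hC0'⟩ := ih (δ / 6) B (by positivity) hB
  obtain ⟨C0, hC01, hC0⟩ : ∃ C0 : ℕ, 1 ≤ C0 ∧ ∀ M : ℕ, C0 ≤ M → ∀ γ : ℝ,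
      δ / 6 * (M : ℝ) ^ d ≤ ((gs d M γ B).card : ℝ) →
      ∃ q : ℕ, 1 ≤ q ∧ q ≤ C0 ∧ ∃ a : ℤ, |(q : ℝ) * γ - a| ≤ C0 / (M : ℝ) ^ (d + 1) := by
    refine ⟨C0' + 1, by omega, ?_⟩
    intro M hM γ h
    obtain ⟨q, h1, h2, a, h3⟩ := hC0' M (by omega) γ h
    refine ⟨q, h1, by omega, a, h3.trans ?_⟩
    apply div_le_div_of_nonneg_right _ (by positivity)
    push_cast
    linarith
  have hC0r : (1 : ℝ) ≤ C0 := by exact_mod_cast hC01
  set δ₁ : ℝ := min 1 (δ / (2 * 3 ^ d * C0)) with hδ₁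
  have hδ₁0 : 0 < δ₁ := lt_min one_pos (by positivity)
  have hδ₁1 : δ₁ ≤ 1 := min_le_left _ _
  have hδ₁2 : δ₁ * (2 * 3 ^ d * C0) ≤ δ := by
    have := min_le_right 1 (δ / (2 * 3 ^ d * (C0 : ℝ)))
    rwa [le_div_iff₀ (by positivity)] at this
  set C : ℕ := C0 + ⌈4 / δ₁⌉₊ * C0 + ⌈32 * C0 / δ₁ ^ 2⌉₊ + ⌈64 * C0 / δ₁⌉₊ + ⌈64 / δ₁ ^ 2⌉₊ + 1
    with hC
  refine ⟨C, ?_⟩
  intro M hM γ hcard
  have hM1 : 1 ≤ M := by omega
  have hMC0 : C0 ≤ M := by
    have : C0 ≤ C := by rw [hC]; omega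
    omega
  have hMr : (1 : ℝ) ≤ M := by exact_mod_cast hM1
  have hMpos : (0 : ℝ) < M := by linarith
  -- the large fibres
  set G : Finset ℤ := (Finset.Icc (-(M : ℤ)) M).filter
    (fun x => δ / 6 * (M : ℝ) ^ d ≤ ((gs d M (γ * x) B).card : ℝ)) with hG
  have hGcard : δ / (2 * 3 ^ d) * M ≤ (G.card : ℝ) := by
    have e1 : ((gs (d + 1) M γ B).card : ℝ) ≤
        G.card * (3 * (M : ℝ)) ^ d + (3 * (M : ℝ)) * (δ / 6 * (M : ℝ) ^ d) := by
      rw [gs_succ, ← Finset.sum_filter_add_sum_filter_not (Finset.Icc (-(M : ℤ)) M)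
        (fun x : ℤ => δ / 6 * (M : ℝ) ^ d ≤ ((gs d M (γ * x) B).card : ℝ))]
      apply add_le_add
      · calc ∑ x ∈ G, ((gs d M (γ * x) B).card : ℝ) ≤ ∑ x ∈ G, (3 * (M : ℝ)) ^ d :=
            Finset.sum_le_sum (fun x _ => card_gs_le d M hM1 _ B)
          _ = G.card * (3 * (M : ℝ)) ^ d := by rw [Finset.sum_const, nsmul_eq_mul]
      · calc ∑ x ∈ (Finset.Icc (-(M : ℤ)) M).filter
              (fun x : ℤ => ¬ δ / 6 * (M : ℝ) ^ d ≤ ((gs d M (γ * x) B).card : ℝ)),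
              ((gs d M (γ * x) B).card : ℝ) ≤ ∑ x ∈ (Finset.Icc (-(M : ℤ)) M).filter
              (fun x : ℤ => ¬ δ / 6 * (M : ℝ) ^ d ≤ ((gs d M (γ * x) B).card : ℝ)),
              δ / 6 * (M : ℝ) ^ d := by
              apply Finset.sum_le_sum
              intro x hx
              exact (not_le.1 (Finset.mem_filter.1 hx).2).le
          _ ≤ ∑ x ∈ (Finset.Icc (-(M : ℤ)) M), δ / 6 * (M : ℝ) ^ d := by
              apply Finset.sum_le_sum_of_subset_of_nonneg (Finset.filter_subset _ _)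
              intro x _ _
              positivity
          _ = (2 * M + 1 : ℝ) * (δ / 6 * (M : ℝ) ^ d) := by
              rw [Finset.sum_const, nsmul_eq_mul, Int.card_Icc]
              have : ((M : ℤ) + 1 - -(M : ℤ)).toNat = 2 * M + 1 := by omega
              rw [this]
              push_cast
              ring
          _ ≤ (3 * (M : ℝ)) * (δ / 6 * (M : ℝ) ^ d) := by
              apply mul_le_mul_of_nonneg_right _ (by positivity)
              linarith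
    have e2 : δ / 2 * (M : ℝ) ^ (d + 1) ≤ G.card * (3 * (M : ℝ)) ^ d := by
      have : (3 * (M : ℝ)) * (δ / 6 * (M : ℝ) ^ d) = δ / 2 * (M : ℝ) ^ (d + 1) := by
        rw [pow_succ]; ring
      nlinarith [hcard, e1]
    have e3 : (δ / (2 * 3 ^ d) * M) * (3 * (M : ℝ)) ^ d ≤ (G.card : ℝ) * (3 * (M : ℝ)) ^ d := by
      calc (δ / (2 * 3 ^ d) * M) * (3 * (M : ℝ)) ^ d = δ / 2 * (M : ℝ) ^ (d + 1) := by
            rw [mul_pow, pow_succ]
            field_simp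
        _ ≤ _ := e2
    exact le_of_mul_le_mul_right e3 (by positivity)
  -- the common denominator
  have hsel : ∀ x : ℤ, ∃ q : ℕ, x ∈ G → (1 ≤ q ∧ q ≤ C0 ∧
      ∃ a : ℤ, |(q : ℝ) * (γ * x) - a| ≤ C0 / (M : ℝ) ^ (d + 1)) := by
    intro x
    by_cases hx : x ∈ G
    · obtain ⟨q, hq⟩ := hC0 M hMC0 (γ * x) (Finset.mem_filter.1 hx).2
      exact ⟨q, fun _ => hq⟩
    · exact ⟨0, fun h => absurd h hx⟩
  choose qf hqf using hsel
  obtain ⟨q, hq1, hq2, hqc⟩ : ∃ q : ℕ, 1 ≤ q ∧ q ≤ C0 ∧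
      δ₁ * M ≤ ((G.filter (fun x => qf x = q)).card : ℝ) := by
    by_contra hcon
    push Not at hcon
    have e1 : G.card = ∑ q ∈ Finset.Icc 1 C0, (G.filter (fun x => qf x = q)).card := by
      apply Finset.card_eq_sum_card_fiberwise
      intro x hx
      have := hqf x (Finset.mem_coe.1 hx)
      exact Finset.mem_coe.2 (Finset.mem_Icc.2 ⟨this.1, this.2.1⟩)
    have e2 : (G.card : ℝ) < ∑ q ∈ Finset.Icc 1 C0, δ₁ * M := by
      rw [e1]
      push_cast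
      apply Finset.sum_lt_sum_of_nonempty ⟨1, Finset.mem_Icc.2 ⟨le_rfl, hC01⟩⟩
      intro q hq
      exact hcon q (Finset.mem_Icc.1 hq).1 (Finset.mem_Icc.1 hq).2
    rw [Finset.sum_const, nsmul_eq_mul, Nat.card_Icc, Nat.add_sub_cancel] at e2
    have e3 : (C0 : ℝ) * (δ₁ * M) ≤ δ / (2 * 3 ^ d) * M := by
      have : (C0 : ℝ) * δ₁ ≤ δ / (2 * 3 ^ d) := by
        rw [le_div_iff₀ (by positivity)]
        nlinarith [hδ₁2]
      nlinarith
    linarith
  obtain ⟨q1, hq11, hq12, hq13⟩ := hRL M ((q : ℝ) * γ) 0 (C0 / (M : ℝ) ^ (d + 1)) δ₁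
    (G.filter (fun x => qf x = q)) hMr (by positivity) hδ₁0 hδ₁1
    (by
      intro x hx
      have := Finset.mem_Icc.1 (Finset.mem_filter.1 (Finset.mem_filter.1 hx).1).1
      rw [abs_le]
      constructor
      · exact_mod_cast this.1
      · exact_mod_cast this.2)
    hqc
    (by
      intro x hx
      obtain ⟨hxG, hxq⟩ := Finset.mem_filter.1 hx
      obtain ⟨_, _, a, ha⟩ := hqf x hxG
      rw [hxq] at ha
      refine (dn_le _ a).trans ?_
      have : (q : ℝ) * γ * x + 0 - a = (q : ℝ) * (γ * x) - a := by ring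
      rw [this]
      exact ha)
    (by
      have h1 : (64 * C0 / δ₁ : ℝ) ≤ M := by
        have : ⌈64 * (C0 : ℝ) / δ₁⌉₊ ≤ M := by omega
        exact (Nat.le_ceil _).trans (by exact_mod_cast this)
      have h2 : (M : ℝ) ≤ (M : ℝ) ^ (d + 1) := by
        calc (M : ℝ) = (M : ℝ) ^ 1 := (pow_one _).symm
          _ ≤ (M : ℝ) ^ (d + 1) := pow_le_pow_right₀ hMr (by omega)
      rw [div_le_iff₀ (by positivity)]
      have h3 : (64 * C0 : ℝ) ≤ M * δ₁ := by rwa [div_le_iff₀ hδ₁0] at h1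
      nlinarith)
    (by
      have : ⌈64 / δ₁ ^ 2⌉₊ ≤ M := by omega
      exact (Nat.le_ceil _).trans (by exact_mod_cast this))
  have hq12' : q1 ≤ ⌈4 / δ₁⌉₊ := by
    exact_mod_cast hq12.trans (Nat.le_ceil _)
  refine ⟨q1 * q, Nat.one_le_iff_ne_zero.2 (by positivity), ?_, round ((q1 : ℝ) * (q * γ)), ?_⟩
  · calc q1 * q ≤ ⌈4 / δ₁⌉₊ * C0 := Nat.mul_le_mul hq12' hq2
      _ ≤ C := by rw [hC]; omega
  · have e1 : |((q1 * q : ℕ) : ℝ) * γ - (round ((q1 : ℝ) * (q * γ)) : ℤ)| =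
        dn ((q1 : ℝ) * ((q : ℝ) * γ)) := by
      unfold Pool.Agent.H98.KS.dn
      push_cast
      congr 2
      ring
    rw [e1]
    refine hq13.trans ?_
    have e2 : 32 * ((C0 : ℝ) / (M : ℝ) ^ (d + 1)) / (δ₁ ^ 2 * M) =
        (32 * C0 / δ₁ ^ 2) / (M : ℝ) ^ (d + 1 + 1) := by
      rw [pow_succ (M : ℝ) (d + 1)]
      field_simp
    rw [e2]
    apply div_le_div_of_nonneg_right _ (by positivity)
    refine (Nat.le_ceil _).trans ?_
    have : ⌈32 * (C0 : ℝ) / δ₁ ^ 2⌉₊ ≤ C := by rw [hC]; omega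
    exact_mod_cast this

private lemma main (hRL : T_RL) (d : ℕ) : ∀ (δ B : ℝ), 0 < δ → 0 < B → ∃ C : ℕ, ∀ M : ℕ, C ≤ M →
    ∀ γ : ℝ, δ * (M : ℝ) ^ d ≤ ((gs d M γ B).card : ℝ) →
      ∃ q : ℕ, 1 ≤ q ∧ q ≤ C ∧ ∃ a : ℤ, |(q : ℝ) * γ - a| ≤ C / (M : ℝ) ^ (d + 1) := by
  induction d with
  | zero =>
    intro δ B hδ hB
    refine ⟨⌈B⌉₊ + 1, ?_⟩
    intro M hM γ h
    have hne : (gs 0 M γ B).Nonempty := by
      rw [← Finset.card_pos]
      by_contra h0
      have h0' : (gs 0 M γ B).card = 0 := by omega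
      rw [h0'] at h
      simp only [pow_zero, mul_one, Nat.cast_zero] at h
      linarith
    obtain ⟨j, hj⟩ := hne
    have hj2 := (Finset.mem_filter.1 hj).2
    refine ⟨1, le_rfl, by omega, round γ, ?_⟩
    simp only [Finset.univ_eq_empty, Finset.prod_empty, Int.cast_one, mul_one] at hj2
    simp only [Nat.cast_one, one_mul, zero_add, pow_one]
    refine hj2.trans ?_
    apply div_le_div_of_nonneg_right _ (by positivity)
    push_cast
    linarith [Nat.le_ceil B]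
  | succ d ih =>
    intro δ B hδ hB
    exact step hRL d ih δ B hδ hB

theorem pf_RM (hRL : Pool.Agent.H98.KS.T_RL) : P_RM := by
  intro d δ B hδ hB
  obtain ⟨C, hC⟩ := main hRL d δ B hδ hB
  exact ⟨C, fun M hM γ h => hC M hM γ h⟩

end Pool.Agent.H29.DPD
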